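import Pool.Agent.H.MP_95a65f_co.A

set_option autoImplicit false

namespace Pool.Agent.Results.MP_95a65f_co.Exact

open Finset Pool.Agent.H.MP_95a65f_co

noncomputable def gammaT {V : Type} (G : SimpleGraph V) : ℕ :=
  sInf {k | ∃ S : Finset V, S.card = k ∧ ∀ v, ∃ u ∈ S, G.Adj v u}

theorem result (r : ℕ) (hr : 3 ≤ r) :
    IsGreatest
      {c : ℝ | ∀ (V : Type) [Fintype V] [Nontrivial V] (G : SimpleGraph V), G.Connected →
        ∀ x : Fin r → V,
          c * ∑ i, ∑ j with i < j, (G.dist (x i) (x j) : ℝ) ≤ gammaT G}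
      (if Even r then 8 / (5 * (r : ℝ) ^ 2 - 4 * r) else 8 / (5 * (r : ℝ) ^ 2 - 4 * r - 1)) := by
  have hval : (if Even r then 8 / (5 * (r : ℝ) ^ 2 - 4 * r)
      else 8 / (5 * (r : ℝ) ^ 2 - 4 * r - 1)) = 2 / ((r * (r - 1) + r ^ 2 / 4 : ℕ) : ℝ) := by
    rcases Nat.even_or_odd' r with ⟨k, rfl | rfl⟩
    · obtain ⟨t, rfl⟩ := Nat.exists_eq_add_of_le (show 1 ≤ k by omega)
      rw [if_pos (even_two_mul _), show (2 * (1 + t)) ^ 2 / 4 = (1 + t) ^ 2 from
        Nat.div_eq_of_eq_mul_left (by norm_num) (by ring),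
        show 2 * (1 + t) - 1 = 2 * t + 1 by omega]
      push_cast
      rw [div_eq_div_iff (by nlinarith [Nat.cast_nonneg (α := ℝ) t]) (by positivity)]
      ring
    · obtain ⟨t, rfl⟩ := Nat.exists_eq_add_of_le (show 1 ≤ k by omega)
      have e : (2 * (1 + t) + 1) ^ 2 / 4 = (1 + t) ^ 2 + (1 + t) := by
        rw [show (2 * (1 + t) + 1) ^ 2 = 1 + 4 * ((1 + t) ^ 2 + (1 + t)) by ring]
        omega
      rw [if_neg (Nat.not_even_iff_odd.2 (odd_two_mul_add_one _)), e, Nat.add_sub_cancel]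
      push_cast
      rw [div_eq_div_iff (by nlinarith [Nat.cast_nonneg (α := ℝ) t]) (by positivity)]
      ring
  rw [hval]
  have hpos : (0 : ℝ) < ((r * (r - 1) + r ^ 2 / 4 : ℕ) : ℝ) := by
    have : 0 < r * (r - 1) := Nat.mul_pos (by omega) (by omega)
    exact_mod_cast Nat.add_pos_left this _
  constructor
  · intro V _ _ G hG x
    classical
    have hne : {k | ∃ S : Finset V, S.card = k ∧ ∀ v, ∃ u ∈ S, G.Adj v u}.Nonempty := by
      refine ⟨_, univ, rfl, fun v => ?_⟩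
      obtain ⟨u, hu⟩ := hG.preconnected.exists_adj_of_nontrivial v
      exact ⟨u, mem_univ _, hu⟩
    obtain ⟨S, hS, hD⟩ := Nat.sInf_mem hne
    have h := lower hG r hr S hD x
    rw [div_mul_eq_mul_div, div_le_iff₀ hpos, gammaT, ← hS]
    exact_mod_cast h
  · intro c hc
    have : Nontrivial (Fin r ⊕ Bool) := ⟨⟨.inr true, .inr false, by simp⟩⟩
    have h1 := hc _ (dstar r) (star_conn r) (fun i => .inl i)
    have h2 : gammaT (dstar r) ≤ 2 := Nat.sInf_le ⟨_, rfl, star_dom r⟩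
    have h3 : ((r * (r - 1) + r ^ 2 / 4 : ℕ) : ℝ) ≤
        ∑ i : Fin r, ∑ j with i < j, ((dstar r).dist (.inl i) (.inl j) : ℝ) := by
      exact_mod_cast upper r
    have h4 : (gammaT (dstar r) : ℝ) ≤ 2 := by exact_mod_cast h2
    rw [le_div_iff₀ hpos]
    rcases le_total c 0 with h | h
    · nlinarith
    · nlinarith [mul_le_mul_of_nonneg_left h3 h]

end Pool.Agent.Results.MP_95a65f_co.Exact
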